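import Mathlib

namespace Pool.Agent.H1.FPU

/-- A partially ordered set `P` has the fixed point property if every order preserving map
`P → P` has a fixed point. -/
def FixedPointProperty (P : Type) [PartialOrder P] : Prop :=
  ∀ f : P → P, Monotone f → ∃ p : P, f p = p

end Pool.Agent.H1.FPU
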