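import Pool.Agent.H1.FPU.Defs

namespace Pool.Agent.H1.FPU

/-- bitmask of the up-set of each of the 11 points -/
def ups : List Nat := [1977, 2010, 1636, 904, 1424, 1568, 1600, 128, 256, 512, 1024]

def tb (x y : Nat) : Bool := Nat.testBit (ups.getD x 0) y

def cons (m : List (Nat × Nat)) (x y : Nat) : Bool :=
  m.all fun p => (!(tb p.1 x) || tb p.2 y) && (!(tb x p.1) || tb y p.2)

def search (S : List Nat) : List Nat → List (Nat × Nat) → Bool
  | [], _ => false
  | x :: xs, m => S.all fun y => y == x || !(cons m x y) || search S xs ((x, y) :: m)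

theorem search_sound (S : List Nat) (f : Nat → Nat)
    (hS : ∀ x ∈ S, f x ∈ S) (hne : ∀ x ∈ S, f x ≠ x)
    (hmono : ∀ x ∈ S, ∀ y ∈ S, tb x y = true → tb (f x) (f y) = true) :
    ∀ (xs : List Nat) (m : List (Nat × Nat)), (∀ x ∈ xs, x ∈ S) →
      (∀ p ∈ m, p.1 ∈ S ∧ p.2 = f p.1) → search S xs m = false := by
  intro xs
  induction xs with
  | nil => intro m _ _; rfl
  | cons x xs ih =>
    intro m hxs hm
    have hx : x ∈ S := hxs x (by simp)
    have h1 : search S xs ((x, f x) :: m) = false := by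
      apply ih
      · intro z hz; exact hxs z (by simp [hz])
      · intro p hp
        rcases List.mem_cons.1 hp with rfl | hp
        · exact ⟨hx, rfl⟩
        · exact hm p hp
    have h2 : cons m x (f x) = true := by
      unfold cons
      rw [List.all_eq_true]
      intro p hp
      obtain ⟨hpS, hpf⟩ := hm p hp
      rw [hpf]
      rw [Bool.and_eq_true, Bool.or_eq_true, Bool.or_eq_true]
      constructor
      · by_cases h : tb p.1 x = true
        · right; exact hmono _ hpS _ hx h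
        · left; simpa using h
      · by_cases h : tb x p.1 = true
        · right; exact hmono _ hx _ hpS h
        · left; simpa using h
    unfold search
    rw [List.all_eq_false]
    refine ⟨f x, hS x hx, ?_⟩
    have h3 : (f x == x) = false := by simpa using hne x hx
    rw [h3, h1, h2]
    simp

/-- the 11 points -/
def Pt : Type := Fin 11

instance : DecidableEq Pt := inferInstanceAs (DecidableEq (Fin 11))
instance : Fintype Pt := inferInstanceAs (Fintype (Fin 11))

instance : PartialOrder Pt where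
  le x y := tb x.1 y.1 = true
  le_refl := by
    show ∀ x : Fin 11, tb x.1 x.1 = true
    decide +kernel
  le_trans := by
    have h : ∀ x y z : Fin 11, (tb x.1 y.1 && tb y.1 z.1) = true → tb x.1 z.1 = true := by
      decide +kernel
    intro x y z h1 h2
    exact h x y z (by rw [h1, h2]; rfl)
  le_antisymm := by
    have h : ∀ x y : Fin 11, (tb x.1 y.1 && tb y.1 x.1) = true → x = y := by
      decide +kernel
    intro x y h1 h2
    exact h x y (by rw [h1, h2]; rfl)

theorem le_def (x y : Pt) : x ≤ y ↔ tb x.1 y.1 = true := Iff.rfl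

def sub (S : List Nat) : Set Pt := {p | p.1 ∈ S}

theorem fpp_sub (S O : List Nat) (hlt : ∀ x ∈ S, x < 11) (hO : ∀ x ∈ O, x ∈ S)
    (h : search S O [] = true) : FixedPointProperty (sub S) := by
  classical
  intro f hf
  by_contra hcon
  push Not at hcon
  let g : Nat → Nat := fun x =>
    if hx : x ∈ S then ((f ⟨(⟨x, hlt x hx⟩ : Fin 11), hx⟩ : sub S) : Pt).1 else 0
  have hg : ∀ x (hx : x ∈ S), g x = ((f ⟨(⟨x, hlt x hx⟩ : Fin 11), hx⟩ : sub S) : Pt).1 := by
    intro x hx
    simp only [g, hx, dif_pos]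
  have key := search_sound S g ?_ ?_ ?_ O [] hO (by simp)
  · rw [key] at h; exact Bool.noConfusion h
  · intro x hx
    rw [hg x hx]
    exact (f ⟨(⟨x, hlt x hx⟩ : Fin 11), hx⟩).2
  · intro x hx he
    rw [hg x hx] at he
    apply hcon ⟨(⟨x, hlt x hx⟩ : Fin 11), hx⟩
    apply Subtype.ext
    exact Fin.ext he
  · intro x hx y hy hxy
    rw [hg x hx, hg y hy]
    exact hf (a := ⟨(⟨x, hlt x hx⟩ : Fin 11), hx⟩) (b := ⟨(⟨y, hlt y hy⟩ : Fin 11), hy⟩) hxy

def SA : List Nat := [0, 1, 2, 3, 4, 5, 6, 7, 9, 10]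
def OA : List Nat := [3, 9, 1, 7, 0, 6, 10, 4, 2, 5]
def SB : List Nat := [0, 1, 2, 3, 4, 5, 6, 8, 9, 10]
def OB : List Nat := [1, 6, 9, 10, 3, 0, 2, 8, 4, 5]
def SC : List Nat := [0, 1, 2, 3, 4, 5, 6, 9, 10]
def OC : List Nat := [0, 5, 10, 9, 2, 6, 1, 4, 3]

theorem fppA : FixedPointProperty (sub SA) :=
  fpp_sub SA OA (by decide) (by decide) (by decide +kernel)

theorem fppB : FixedPointProperty (sub SB) :=
  fpp_sub SB OB (by decide) (by decide) (by decide +kernel)

theorem fppC : FixedPointProperty (sub SC) :=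
  fpp_sub SC OC (by decide) (by decide) (by decide +kernel)

theorem interAB : (sub SA ∩ sub SB : Set Pt) = sub SC := by
  ext p
  show (p.1 ∈ SA ∧ p.1 ∈ SB) ↔ p.1 ∈ SC
  revert p
  show ∀ p : Fin 11, (p.1 ∈ SA ∧ p.1 ∈ SB) ↔ p.1 ∈ SC
  decide

theorem unionAB : (sub SA ∪ sub SB : Set Pt) = Set.univ := by
  ext p
  simp only [Set.mem_univ, iff_true]
  show (p.1 ∈ SA ∨ p.1 ∈ SB)
  revert p
  show ∀ p : Fin 11, (p.1 ∈ SA ∨ p.1 ∈ SB)
  decide

theorem lowerA : IsLowerSet (sub SA) := by
  intro x y hxy hx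
  have h : ∀ x y : Fin 11, (tb y.1 x.1 = true ∧ x.1 ∈ SA) → y.1 ∈ SA := by decide +kernel
  exact h x y ⟨hxy, hx⟩

theorem lowerB : IsLowerSet (sub SB) := by
  intro x y hxy hx
  have h : ∀ x y : Fin 11, (tb y.1 x.1 = true ∧ x.1 ∈ SB) → y.1 ∈ SB := by decide +kernel
  exact h x y ⟨hxy, hx⟩

def bad : Fin 11 → Fin 11 := ![1, 0, 0, 4, 3, 3, 0, 8, 7, 7, 3]

theorem not_fpp : ¬ FixedPointProperty Pt := by
  intro h
  obtain ⟨p, hp⟩ := h (fun x => bad x) (by
    intro x y hxy
    have h : ∀ x y : Fin 11, tb x.1 y.1 = true → tb (bad x).1 (bad y).1 = true := by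
      decide +kernel
    exact h x y hxy)
  have h2 : ∀ p : Fin 11, bad p ≠ p := by decide
  exact h2 p hp

theorem main : ∃ (X : Type) (_ : PartialOrder X) (_ : Finite X) (A B : Set X),
    IsLowerSet A ∧ IsLowerSet B ∧ A ∪ B = Set.univ ∧
    FixedPointProperty A ∧ FixedPointProperty B ∧ FixedPointProperty (A ∩ B : Set X) ∧
    ¬ FixedPointProperty X := by
  refine ⟨Pt, inferInstance, inferInstance, sub SA, sub SB, lowerA, lowerB, unionAB, fppA, fppB,
    ?_, not_fpp⟩
  rw [interAB]
  exact fppC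

end Pool.Agent.H1.FPU
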